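import Mathlib

/-!
The number of distinct zeros of `B² - A³`.
-/

set_option autoImplicit false

namespace Pool.Agent.NH26.HF

open Polynomial UniqueFactorizationMonoid EuclideanDomain

theorem C2' : (C 2 : ℚ[X]) = 2 := map_ofNat C 2

theorem C3' : (C 3 : ℚ[X]) = 3 := map_ofNat C 3

/-- local condition for divisibility by `divRadical` -/
theorem divRadical_dvd_of (D W : ℚ[X]) (hD : D ≠ 0)
    (h : ∀ (p : ℚ[X]) (i : ℕ), Prime p → p ^ (i + 1) ∣ D → p ^ i ∣ W) : divRadical D ∣ W := by
  have key : ∀ x : ℚ[X], x ∣ D → divRadical x ∣ W := by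
    intro x
    induction x using induction_on_coprime with
    | h0 => intro h0; exact absurd (zero_dvd_iff.1 h0) hD
    | h1 ha => intro _; exact (divRadical_isUnit ha).dvd
    | hpr i hp =>
      rename_i p
      intro hpD
      cases i with
      | zero =>
        rw [pow_zero]
        exact (divRadical_isUnit isUnit_one).dvd
      | succ i =>
        have h1 := h p i hp hpD
        rw [← mul_dvd_mul_iff_left (radical_ne_zero (a := p ^ (i + 1))), radical_mul_divRadical,
          radical_pow_of_prime hp i.succ_ne_zero, pow_succ, mul_comm (p ^ i) p]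
        exact mul_dvd_mul (dvd_normalize_iff.2 dvd_rfl) h1
    | hcp hpxy hx hy =>
      rename_i x y
      intro hxy
      have hc : IsCoprime x y :=
        EuclideanDomain.isCoprime_of_dvd
          (fun ⟨hx, hy⟩ => not_isUnit_zero (hpxy (zero_dvd_iff.mpr hx) (zero_dvd_iff.mpr hy)))
          fun p hp _ hpx hpy => hp (hpxy hpx hpy)
      rw [divRadical_mul hc]
      exact hc.divRadical.mul_dvd (hx ((dvd_mul_right x y).trans hxy))
        (hy ((dvd_mul_left y x).trans hxy))
  exact key D dvd_rfl

/-- if `p^(i+1)` divides `p^k Y` with `Y` prime to `p` then `i + 1 ≤ k` -/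
theorem le_of_pow_dvd {p Y : ℚ[X]} (hp : Prime p) (hY : ¬ p ∣ Y) {i k : ℕ}
    (h : p ^ i ∣ p ^ k * Y) : i ≤ k := by
  by_contra hcon
  push Not at hcon
  have h1 : p ^ k * p ∣ p ^ k * Y := by
    rw [← pow_succ]
    exact (pow_dvd_pow p hcon).trans h
  exact hY ((mul_dvd_mul_iff_left (pow_ne_zero k hp.ne_zero)).1 h1)

/-- the local divisibility -/
theorem local_dvd (A B : ℚ[X]) (p : ℚ[X]) (hp : Prime p) (hmin : ¬ (p ^ 2 ∣ A ∧ p ^ 3 ∣ B)) (i : ℕ)
    (h : p ^ (i + 1) ∣ B ^ 2 - A ^ 3) :
    p ^ i ∣ 2 * A * derivative B - 3 * derivative A * B := by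
  set W := 2 * A * derivative B - 3 * derivative A * B with hW
  set D := B ^ 2 - A ^ 3 with hD
  have hD' : derivative D = 2 * B * derivative B - 3 * A ^ 2 * derivative A := by
    rw [hD, derivative_sub, derivative_pow, derivative_pow]
    simp [C2', C3']
  have id1 : A * derivative D = B * W + 3 * derivative A * D := by
    rw [hD', hW, hD]; ring
  have id2 : B * derivative D = 2 * derivative B * D + A ^ 2 * W := by
    rw [hD', hW, hD]; ring
  have hpi : p ^ i ∣ D := (pow_dvd_pow p (Nat.le_succ i)).trans h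
  have hpi' : p ^ i ∣ derivative D := by
    obtain ⟨Y, hY⟩ := h
    rw [hY, derivative_mul, derivative_pow_succ]
    exact dvd_add (by
      refine Dvd.dvd.mul_right ?_ Y
      exact Dvd.dvd.mul_right (Dvd.intro_left _ rfl) _)
      ((pow_dvd_pow p (Nat.le_succ i)).mul_right _)
  by_cases hB : p ∣ B
  · by_cases hA : p ∣ A
    · obtain ⟨A1, hA1⟩ := hA
      obtain ⟨B1, hB1⟩ := hB
      by_cases hB1' : p ∣ B1
      · obtain ⟨B2, hB2⟩ := hB1'
        by_cases hA1' : p ∣ A1
        · obtain ⟨A2, hA2⟩ := hA1'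
          have hB2' : ¬ p ∣ B2 := by
            rintro ⟨B3, hB3⟩
            apply hmin
            exact ⟨⟨A2, by rw [hA1, hA2]; ring⟩, ⟨B3, by rw [hB1, hB2, hB3]; ring⟩⟩
          have e1 : D = p ^ 4 * (B2 ^ 2 - p ^ 2 * A2 ^ 3) := by
            rw [hD, hA1, hA2, hB1, hB2]; ring
          have hY : ¬ p ∣ B2 ^ 2 - p ^ 2 * A2 ^ 3 := by
            intro h0
            apply hB2'
            apply hp.dvd_of_dvd_pow (n := 2)
            have : B2 ^ 2 = (B2 ^ 2 - p ^ 2 * A2 ^ 3) + p * (p * A2 ^ 3) := by ring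
            rw [this]
            exact dvd_add h0 (dvd_mul_right _ _)
          rw [e1] at h
          have h3 := le_of_pow_dvd hp hY h
          have h4 : p ^ 3 ∣ W := by
            refine ⟨2 * A2 * (2 * derivative p * B2 + p * derivative B2) -
              3 * (2 * derivative p * A2 + p * derivative A2) * B2, ?_⟩
            rw [hW, hA1, hA2, hB1, hB2]
            simp only [derivative_mul]
            ring
          exact (pow_dvd_pow p (by omega)).trans h4
        · have e1 : D = p ^ 3 * (p * B2 ^ 2 - A1 ^ 3) := by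
            rw [hD, hA1, hB1, hB2]; ring
          have hY : ¬ p ∣ p * B2 ^ 2 - A1 ^ 3 := by
            intro h0
            apply hA1'
            apply hp.dvd_of_dvd_pow (n := 3)
            have : A1 ^ 3 = p * B2 ^ 2 - (p * B2 ^ 2 - A1 ^ 3) := by ring
            rw [this]
            exact dvd_sub (dvd_mul_right _ _) h0
          rw [e1] at h
          have h3 := le_of_pow_dvd hp hY h
          have h4 : p ^ 2 ∣ W := by
            refine ⟨2 * A1 * (2 * derivative p * B2 + p * derivative B2) -
              3 * (derivative p * A1 + p * derivative A1) * B2, ?_⟩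
            rw [hW, hA1, hB1, hB2]
            simp only [derivative_mul]
            ring
          exact (pow_dvd_pow p (by omega)).trans h4
      · have e1 : D = p ^ 2 * (B1 ^ 2 - p * A1 ^ 3) := by
          rw [hD, hA1, hB1]; ring
        have hY : ¬ p ∣ B1 ^ 2 - p * A1 ^ 3 := by
          intro h0
          apply hB1'
          apply hp.dvd_of_dvd_pow (n := 2)
          have : B1 ^ 2 = (B1 ^ 2 - p * A1 ^ 3) + p * A1 ^ 3 := by ring
          rw [this]
          exact dvd_add h0 (dvd_mul_right _ _)
        rw [e1] at h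
        have h3 := le_of_pow_dvd hp hY h
        have h4 : p ^ 1 ∣ W := by
          rw [pow_one]
          refine ⟨2 * A1 * derivative B - 3 * derivative A * B1, ?_⟩
          rw [hW]
          nth_rewrite 1 [hA1]
          nth_rewrite 2 [hB1]
          ring
        exact (pow_dvd_pow p (by omega)).trans h4
    · -- p does not divide A
      have h1 : p ^ i ∣ A ^ 2 * W := by
        have : A ^ 2 * W = B * derivative D - 2 * derivative B * D := by rw [id2]; ring
        rw [this]
        exact dvd_sub (hpi'.mul_left _) (hpi.mul_left _)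
      have h2 : IsCoprime (p ^ i) (A ^ 2) := by
        apply IsCoprime.pow
        exact (hp.irreducible.coprime_iff_not_dvd).2 hA
      exact h2.dvd_of_dvd_mul_left h1
  · have h1 : p ^ i ∣ B * W := by
      have : B * W = A * derivative D - 3 * derivative A * D := by rw [id1]; ring
      rw [this]
      exact dvd_sub (hpi'.mul_left _) (hpi.mul_left _)
    have h2 : IsCoprime (p ^ i) B := by
      apply IsCoprime.pow_left
      exact (hp.irreducible.coprime_iff_not_dvd).2 hB
    exact h2.dvd_of_dvd_mul_left h1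

/-- the Wronskian does not vanish -/
theorem W_ne (A B : ℚ[X]) (n : ℕ) (hn : 1 ≤ n) (hA : A.natDegree = 2 * n) (hB : B.natDegree = 3 * n)
    (hD : (B ^ 2 - A ^ 3).natDegree = 6 * n)
    (hmin : ∀ p : ℚ[X], Prime p → ¬ (p ^ 2 ∣ A ∧ p ^ 3 ∣ B)) :
    2 * A * derivative B - 3 * derivative A * B ≠ 0 := by
  intro hW
  set D := B ^ 2 - A ^ 3 with hDd
  have hA0 : A ≠ 0 := by rintro rfl; simp at hA; omega
  have hB0 : B ≠ 0 := by rintro rfl; simp at hB; omega
  have hD0 : D ≠ 0 := by intro h0; rw [h0] at hD; simp at hD; omega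
  have hD' : derivative D = 2 * B * derivative B - 3 * A ^ 2 * derivative A := by
    rw [hDd, derivative_sub, derivative_pow, derivative_pow]
    simp [C2', C3']
  have id1 : A * derivative D = 3 * derivative A * D := by
    have : A * derivative D = B * (2 * A * derivative B - 3 * derivative A * B) +
        3 * derivative A * D := by
      rw [hD', hDd]; ring
    rw [this, hW]; ring
  -- compare leading coefficients
  set c := D.leadingCoeff / (A ^ 3).leadingCoeff with hc
  have hA3 : (A ^ 3).natDegree = 6 * n := by rw [natDegree_pow, hA]; ring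
  have hlA3 : (A ^ 3).leadingCoeff ≠ 0 := leadingCoeff_ne_zero.2 (pow_ne_zero _ hA0)
  set E := D - C c * A ^ 3 with hE
  have hE0 : E = 0 := by
    by_contra hne
    have idE : A * derivative E = 3 * derivative A * E := by
      have e1 : derivative E = derivative D - C c * (3 * A ^ 2 * derivative A) := by
        rw [hE, derivative_sub, derivative_C_mul, derivative_pow]
        simp [C3']
      rw [e1, hE, mul_sub, id1]; ring
    have hEdeg : E.natDegree ≤ 6 * n := by
      rw [hE]
      refine (natDegree_sub_le _ _).trans (max_le hD.le ?_)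
      exact (natDegree_C_mul_le _ _).trans hA3.le
    have hEc : E.coeff (6 * n) = 0 := by
      rw [hE, coeff_sub, coeff_C_mul, ← hD, coeff_natDegree, hD, ← hA3, coeff_natDegree, hc]
      field_simp
      ring
    set m := E.natDegree with hm
    have hmlt : m < 6 * n := by
      rcases hEdeg.lt_or_eq with h1 | h1
      · exact h1
      · exfalso
        rw [← h1, hm, coeff_natDegree] at hEc
        exact hne (leadingCoeff_eq_zero.1 hEc)
    have hlE : E.leadingCoeff ≠ 0 := leadingCoeff_ne_zero.2 hne
    have hlA : A.leadingCoeff ≠ 0 := leadingCoeff_ne_zero.2 hA0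
    rcases Nat.eq_zero_or_pos m with hm0 | hm0
    · -- E constant
      have hEC : derivative E = 0 := by
        rw [eq_C_of_natDegree_eq_zero (hm ▸ hm0 : E.natDegree = 0)]
        simp
      rw [hEC, mul_zero] at idE
      have hA' : derivative A ≠ 0 := by
        intro h0
        have := derivative_eq_zero.1 h0
        omega
      exact mul_ne_zero (mul_ne_zero (by norm_num) hA') hne idE.symm
    · have c1 : (A * derivative E).coeff (2 * n + (m - 1)) = A.leadingCoeff * (E.leadingCoeff * m) := by
        rw [coeff_mul_add_eq_of_natDegree_le hA.le ((natDegree_derivative_le E))]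
        rw [← hA, coeff_natDegree, coeff_derivative, Nat.sub_add_cancel hm0, ← hm, coeff_natDegree]
        congr 2
        rw [Nat.cast_sub hm0]; push_cast; ring
      have c2 : (3 * derivative A * E).coeff ((2 * n - 1) + m) =
          3 * (A.leadingCoeff * (2 * n)) * E.leadingCoeff := by
        have hn' : (2 * n - 1 + 1) = 2 * n := by omega
        have e3 : (3 : ℚ[X]) = C 3 := C3'.symm
        rw [e3, mul_assoc, coeff_C_mul, coeff_mul_add_eq_of_natDegree_le
          ((natDegree_derivative_le A).trans (by rw [hA])) le_rfl, coeff_derivative, hn', ← hA,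
          coeff_natDegree, coeff_natDegree, hA]
        have : ((2 * n - 1 : ℕ) : ℚ) = 2 * n - 1 := by
          rw [Nat.cast_sub (by omega)]; push_cast; ring
        rw [this]; ring
      have e4 : 2 * n + (m - 1) = (2 * n - 1) + m := by omega
      rw [e4, idE, c2] at c1
      have : A.leadingCoeff * E.leadingCoeff * ((6 * n : ℚ) - m) = 0 := by linear_combination c1
      have h9 : (6 * n : ℚ) - m ≠ 0 := by
        have : (m : ℚ) < 6 * n := by exact_mod_cast hmlt
        linarith
      exact mul_ne_zero (mul_ne_zero hlA hlE) h9 this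
  -- D = c A^3
  have hDc : D = C c * A ^ 3 := sub_eq_zero.1 hE0
  have hB2 : B ^ 2 = C (1 + c) * A ^ 3 := by
    have : B ^ 2 = D + A ^ 3 := by rw [hDd]; ring
    rw [this, hDc, C_add, C_1]; ring
  have hc1 : 1 + c ≠ 0 := by
    intro h0
    rw [h0, C_0, zero_mul] at hB2
    exact hB0 (pow_eq_zero_iff (by norm_num) |>.1 hB2)
  have hu : IsUnit (C (1 + c)) := isUnit_C.2 (isUnit_iff_ne_zero.2 hc1)
  -- a prime factor of A
  have hAu : ¬ IsUnit A := by
    intro h0
    have := natDegree_eq_zero_of_isUnit h0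
    omega
  obtain ⟨p, hpi, hpA⟩ := WfDvdMonoid.exists_irreducible_factor hAu hA0
  have hp : Prime p := hpi.prime
  apply hmin p hp
  obtain ⟨A1, hA1⟩ := hpA
  have hpB : p ∣ B := by
    apply hp.dvd_of_dvd_pow (n := 2)
    rw [hB2, hA1]
    exact ⟨C (1 + c) * (p ^ 2 * A1 ^ 3), by ring⟩
  obtain ⟨B1, hB1⟩ := hpB
  have hp0 := hp.ne_zero
  have e1 : B1 ^ 2 = C (1 + c) * (p * A1 ^ 3) := by
    apply mul_left_cancel₀ (pow_ne_zero 2 hp0)
    rw [hA1, hB1] at hB2
    linear_combination hB2
  have hpB1 : p ∣ B1 := by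
    apply hp.dvd_of_dvd_pow (n := 2)
    rw [e1]
    exact ⟨C (1 + c) * A1 ^ 3, by ring⟩
  obtain ⟨B2, hB2'⟩ := hpB1
  have e2 : p * B2 ^ 2 = C (1 + c) * A1 ^ 3 := by
    apply mul_left_cancel₀ hp0
    rw [hB2'] at e1
    linear_combination e1
  have hpA1 : p ∣ A1 := by
    apply hp.dvd_of_dvd_pow (n := 3)
    have : p ∣ C (1 + c) * A1 ^ 3 := ⟨B2 ^ 2, e2.symm⟩
    exact (hu.dvd_mul_left).1 this
  obtain ⟨A2, hA2⟩ := hpA1
  have e3 : B2 ^ 2 = p ^ 2 * (C (1 + c) * A2 ^ 3) := by
    apply mul_left_cancel₀ hp0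
    rw [hA2] at e2
    linear_combination e2
  have hpB2 : p ∣ B2 := by
    apply hp.dvd_of_dvd_pow (n := 2)
    rw [e3]
    exact ⟨p * (C (1 + c) * A2 ^ 3), by ring⟩
  obtain ⟨B3, hB3⟩ := hpB2
  exact ⟨⟨A2, by rw [hA1, hA2]; ring⟩, ⟨B3, by rw [hB1, hB2', hB3]; ring⟩⟩

/-- **the number of distinct zeros** -/
theorem rad_deg (A B : ℚ[X]) (n : ℕ) (hn : 1 ≤ n) (hA : A.natDegree = 2 * n)
    (hB : B.natDegree = 3 * n) (hD : (B ^ 2 - A ^ 3).natDegree = 6 * n)
    (hmin : ∀ p : ℚ[X], Prime p → ¬ (p ^ 2 ∣ A ∧ p ^ 3 ∣ B)) :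
    n + 2 ≤ (radical (B ^ 2 - A ^ 3)).natDegree := by
  set D := B ^ 2 - A ^ 3 with hDd
  have hD0 : D ≠ 0 := by intro h0; rw [h0] at hD; simp at hD; omega
  set W := 2 * A * derivative B - 3 * derivative A * B with hW
  have hW0 : W ≠ 0 := W_ne A B n hn hA hB hD hmin
  have h1 : divRadical D ∣ W := divRadical_dvd_of D W hD0 fun p i hp h =>
    local_dvd A B p hp (hmin p hp) i h
  have h2 : D.natDegree = (radical D).natDegree + (divRadical D).natDegree := by
    conv_lhs => rw [← radical_mul_divRadical (a := D)]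
    rw [natDegree_mul radical_ne_zero (divRadical_ne_zero hD0)]
  have h3 : (divRadical D).natDegree ≤ W.natDegree := natDegree_le_of_dvd h1 hW0
  -- the degree of W
  have hn1 : 2 * n - 1 + 1 = 2 * n := by omega
  have hn2 : 3 * n - 1 + 1 = 3 * n := by omega
  have dB : (derivative B).natDegree ≤ 3 * n - 1 := (natDegree_derivative_le B).trans (by rw [hB])
  have dA : (derivative A).natDegree ≤ 2 * n - 1 := (natDegree_derivative_le A).trans (by rw [hA])
  have e2 : (2 : ℚ[X]) = C 2 := C2'.symm
  have e3 : (3 : ℚ[X]) = C 3 := C3'.symm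
  have hWd : W.natDegree ≤ 5 * n - 1 := by
    rw [hW]
    refine (natDegree_sub_le _ _).trans (max_le ?_ ?_)
    · rw [e2, mul_assoc]
      refine (natDegree_C_mul_le _ _).trans (natDegree_mul_le.trans ?_)
      omega
    · rw [e3, mul_assoc]
      refine (natDegree_C_mul_le _ _).trans (natDegree_mul_le.trans ?_)
      omega
  have hWc : W.coeff (5 * n - 1) = 0 := by
    have c1 : (A * derivative B).coeff (2 * n + (3 * n - 1)) =
        A.leadingCoeff * (B.leadingCoeff * (3 * n)) := by
      rw [coeff_mul_add_eq_of_natDegree_le hA.le dB, coeff_derivative, hn2, ← hA, coeff_natDegree, ← hB,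
        coeff_natDegree, hB]
      have : ((3 * n - 1 : ℕ) : ℚ) = 3 * n - 1 := by
        rw [Nat.cast_sub (by omega)]; push_cast; ring
      rw [this]; ring
    have c2 : (derivative A * B).coeff ((2 * n - 1) + 3 * n) =
        (A.leadingCoeff * (2 * n)) * B.leadingCoeff := by
      rw [coeff_mul_add_eq_of_natDegree_le dA hB.le, coeff_derivative, hn1, ← hA, coeff_natDegree, ← hB,
        coeff_natDegree, hA]
      have : ((2 * n - 1 : ℕ) : ℚ) = 2 * n - 1 := by
        rw [Nat.cast_sub (by omega)]; push_cast; ring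
      rw [this]; ring
    have i1 : 2 * n + (3 * n - 1) = 5 * n - 1 := by omega
    have i2 : (2 * n - 1) + 3 * n = 5 * n - 1 := by omega
    rw [i1] at c1
    rw [i2] at c2
    rw [hW, coeff_sub, e2, e3, mul_assoc, mul_assoc, coeff_C_mul, coeff_C_mul, c1, c2]
    ring
  have hWlt : W.natDegree < 5 * n - 1 := by
    rcases hWd.lt_or_eq with h4 | h4
    · exact h4
    · exfalso
      rw [← h4, coeff_natDegree] at hWc
      exact hW0 (leadingCoeff_eq_zero.1 hWc)
  omega

end Pool.Agent.NH26.HF
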