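import Mathlib
import Pool.Agent.NH26.HF.Rad
import Pool.Agent.NH26.HC.Tp

/-!
Lower bounds for `B² - A³` at integral points, for binary forms `A`, `B`.
-/

set_option autoImplicit false

namespace Pool.Agent.NH26.HF

open Polynomial UniqueFactorizationMonoid EuclideanDomain Pool.Agent.NH26.HC Pool.Agent.Y670.RD

/-- integral polynomial proportional to a rational one -/
theorem exists_int (f : ℚ[X]) : ∃ (g : ℤ[X]) (k : ℤ), k ≠ 0 ∧
    g.map (Int.castRingHom ℚ) = C (k : ℚ) * f := by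
  obtain ⟨b, hb, h⟩ := IsLocalization.integerNormalization_spec (nonZeroDivisors ℤ) f
  refine ⟨IsLocalization.integerNormalization (nonZeroDivisors ℤ) f, b,
    nonZeroDivisors.ne_zero hb, ?_⟩
  have h2 : (algebraMap ℤ ℚ) = Int.castRingHom ℚ := rfl
  rw [h2] at h
  rw [h]
  ext i
  simp

/-- the squarefree part of an integral polynomial -/
theorem int_rad (D : ℤ[X]) (hD : D ≠ 0) : ∃ (R S : ℤ[X]) (k : ℤ), k ≠ 0 ∧ C k * D = R * S ∧
    Squarefree (R.map (Int.castRingHom ℚ)) ∧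
    R.natDegree = (radical (D.map (Int.castRingHom ℚ))).natDegree := by
  have hinj : Function.Injective (Int.castRingHom ℚ) := Int.cast_injective
  set Dq := D.map (Int.castRingHom ℚ) with hDq
  obtain ⟨Sq, hSq⟩ := radical_dvd_self (a := Dq)
  obtain ⟨R, k1, hk1, hR⟩ := exists_int (radical Dq)
  obtain ⟨S, k2, hk2, hS⟩ := exists_int Sq
  have hk1q : (k1 : ℚ) ≠ 0 := by exact_mod_cast hk1
  refine ⟨R, S, k1 * k2, mul_ne_zero hk1 hk2, ?_, ?_, ?_⟩
  · apply Polynomial.map_injective _ hinj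
    rw [Polynomial.map_mul, Polynomial.map_mul, hR, hS, Polynomial.map_C, ← hDq]
    have e1 : (Int.castRingHom ℚ) (k1 * k2) = (k1 : ℚ) * k2 := by simp
    rw [e1, C_mul]
    conv_lhs => rw [hSq]
    ring
  · rw [hR]
    have hu : IsUnit (C (k1 : ℚ)) := isUnit_C.2 (isUnit_iff_ne_zero.2 hk1q)
    have : Associated (radical Dq) (C (k1 : ℚ) * radical Dq) := by
      rw [mul_comm]
      exact (associated_mul_unit_right _ _ hu)
    exact (this.squarefree_iff).1 squarefree_radical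
  · rw [← natDegree_map_eq_of_injective hinj R, hR, natDegree_C_mul hk1q]

/-- descent of square factors to integral polynomials -/
theorem gauss_dvd (A B : ℤ[X]) (p : ℚ[X]) (hp : Prime p)
    (hA : p ^ 2 ∣ A.map (Int.castRingHom ℚ)) (hB : p ^ 3 ∣ B.map (Int.castRingHom ℚ)) :
    ∃ q : ℤ[X], 1 ≤ q.natDegree ∧ q ^ 2 ∣ A ∧ q ^ 3 ∣ B := by
  have hinj : Function.Injective (Int.castRingHom ℚ) := Int.cast_injective
  obtain ⟨g, k, hk, hg⟩ := exists_int p
  have hkq : (k : ℚ) ≠ 0 := by exact_mod_cast hk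
  have hg0 : g ≠ 0 := by
    rintro rfl
    rw [Polynomial.map_zero] at hg
    exact (mul_ne_zero (C_ne_zero.2 hkq) hp.ne_zero) hg.symm
  set q := g.primPart with hq
  have hprim : q.IsPrimitive := isPrimitive_primPart g
  have hcont : g.content ≠ 0 := content_eq_zero_iff.not.2 hg0
  have hcq : (g.content : ℚ) ≠ 0 := by exact_mod_cast hcont
  have hmap : C (g.content : ℚ) * q.map (Int.castRingHom ℚ) = C (k : ℚ) * p := by
    rw [← hg]
    conv_rhs => rw [g.eq_C_content_mul_primPart]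
    rw [Polynomial.map_mul, Polynomial.map_C, ← hq]
    rfl
  have hpow : ∀ m : ℕ, (q ^ m).IsPrimitive := by
    intro m
    induction m with
    | zero => rw [pow_zero]; exact isPrimitive_one
    | succ m ih => rw [pow_succ]; exact ih.mul hprim
  have hdvd : ∀ m : ℕ, ∀ F : ℤ[X], p ^ m ∣ F.map (Int.castRingHom ℚ) → q ^ m ∣ F := by
    intro m F hF
    rw [IsPrimitive.Int.dvd_iff_map_cast_dvd_map_cast _ _ (hpow m), Polynomial.map_pow]
    refine dvd_trans ?_ hF
    have e1 : q.map (Int.castRingHom ℚ) = C ((g.content : ℚ)⁻¹ * k) * p := by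
      have : C ((g.content : ℚ)⁻¹) * (C (g.content : ℚ) * q.map (Int.castRingHom ℚ)) =
          C ((g.content : ℚ)⁻¹) * (C (k : ℚ) * p) := by rw [hmap]
      rw [← mul_assoc, ← C_mul, inv_mul_cancel₀ hcq, C_1, one_mul] at this
      rw [this, ← mul_assoc, ← C_mul]
    rw [e1, mul_pow]
    have hu : IsUnit (C ((g.content : ℚ)⁻¹ * k) ^ m) :=
      (isUnit_C.2 (isUnit_iff_ne_zero.2 (mul_ne_zero (inv_ne_zero hcq) hkq))).pow m
    exact (hu.mul_left_dvd).2 dvd_rfl
  refine ⟨q, ?_, hdvd 2 A hA, hdvd 3 B hB⟩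
  have h1 : q.natDegree = p.natDegree := by
    rw [← natDegree_map_eq_of_injective hinj q]
    have := congrArg natDegree hmap
    rw [natDegree_C_mul hcq, natDegree_C_mul hkq] at this
    exact this
  rw [h1]
  exact hp.irreducible.natDegree_pos

theorem fv_mul' {N1 N2 : ℕ} {f g : ℤ[X]} (hf : f.natDegree ≤ N1) (hg : g.natDegree ≤ N2)
    (s t : ℤ) : fv (N1 + N2) (f * g) s t = fv N1 f s t * fv N2 g s t := by
  by_cases ht : t = 0
  · rw [ht, fv_zero, fv_zero, fv_zero, coeff_mul_add_eq_of_natDegree_le hf hg]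
    ring
  · exact fv_mul hf hg ht

theorem fv_C_mul (N : ℕ) (k : ℤ) (f : ℤ[X]) (s t : ℤ) : fv N (C k * f) s t = k * fv N f s t := by
  unfold fv
  rw [Finset.mul_sum]
  refine Finset.sum_congr rfl fun i _ => ?_
  rw [coeff_C_mul]; ring

theorem fv_sub (N : ℕ) (f g : ℤ[X]) (s t : ℤ) : fv N (f - g) s t = fv N f s t - fv N g s t := by
  unfold fv
  rw [← Finset.sum_sub_distrib]
  refine Finset.sum_congr rfl fun i _ => ?_
  rw [coeff_sub]; ring

theorem fv_pow {N : ℕ} {f : ℤ[X]} (hf : f.natDegree ≤ N) (m : ℕ) (s t : ℤ) :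
    fv (m * N) (f ^ m) s t = fv N f s t ^ m := by
  induction m with
  | zero => simp [fv]
  | succ m ih =>
    rw [pow_succ, pow_succ, ← ih, add_mul, one_mul]
    exact fv_mul' (natDegree_pow_le.trans (Nat.mul_le_mul_left m hf)) hf s t

/-- the value of `B² - A³` -/
theorem fv_D {n : ℕ} {A B : ℤ[X]} (hA : A.natDegree ≤ 2 * n) (hB : B.natDegree ≤ 3 * n) (s t : ℤ) :
    fv (6 * n) (B ^ 2 - A ^ 3) s t = fv (3 * n) B s t ^ 2 - fv (2 * n) A s t ^ 3 := by
  rw [fv_sub, ← fv_pow hA 3, ← fv_pow hB 2]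
  congr 2 <;> ring

theorem one_le_max {s t : ℤ} (h : IsCoprime s t) : (1 : ℝ) ≤ max |(s : ℝ)| |(t : ℝ)| := by
  by_cases hs : s = 0
  · rw [hs, isCoprime_zero_left] at h
    refine le_max_of_le_right ?_
    rcases Int.isUnit_iff.1 h with h1 | h1 <;> rw [h1] <;> simp
  · refine le_max_of_le_left ?_
    exact_mod_cast Int.one_le_abs hs

/-- **the minimal case** -/
theorem minimal_bound (A B : ℤ[X]) (n : ℕ) (hn : 1 ≤ n) (hA : A.natDegree = 2 * n)
    (hB : B.natDegree = 3 * n) (hD : (B ^ 2 - A ^ 3).natDegree = 6 * n)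
    (hmin : ∀ q : ℤ[X], 1 ≤ q.natDegree → ¬ (q ^ 2 ∣ A ∧ q ^ 3 ∣ B)) (T : Finset ℕ)
    (hT : ∀ p ∈ T, p.Prime) (ε : ℝ) (hε : 0 < ε) :
    ∃ c : ℝ, 0 < c ∧ ∀ s t : ℤ, IsCoprime s t → fv (6 * n) (B ^ 2 - A ^ 3) s t ≠ 0 →
      c * (max |(s : ℝ)| |(t : ℝ)|) ^ ((n : ℝ) - ε) ≤ tp T (fv (6 * n) (B ^ 2 - A ^ 3) s t) := by
  have hinj : Function.Injective (Int.castRingHom ℚ) := Int.cast_injective
  set D := B ^ 2 - A ^ 3 with hDd
  have hD0 : D ≠ 0 := by intro h0; rw [h0] at hD; simp at hD; omega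
  obtain ⟨R, S, k, hk, hRS, hsq, hdeg⟩ := int_rad D hD0
  have hrad : n + 2 ≤ R.natDegree := by
    rw [hdeg]
    have hDm : D.map (Int.castRingHom ℚ) = (B.map (Int.castRingHom ℚ)) ^ 2 -
        (A.map (Int.castRingHom ℚ)) ^ 3 := by
      rw [hDd, Polynomial.map_sub, Polynomial.map_pow, Polynomial.map_pow]
    rw [hDm]
    apply rad_deg _ _ n hn
    · rw [natDegree_map_eq_of_injective hinj, hA]
    · rw [natDegree_map_eq_of_injective hinj, hB]
    · rw [← hDm, natDegree_map_eq_of_injective hinj, hD]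
    · intro p hp ⟨h1, h2⟩
      obtain ⟨q, hq, hqA, hqB⟩ := gauss_dvd A B p hp h1 h2
      exact hmin q hq ⟨hqA, hqB⟩
  set N := R.natDegree with hN
  obtain ⟨c, hc, hb⟩ := rid_form' R hsq (by omega) T hT ε hε
  have hk1 : (0 : ℝ) < |(k : ℝ)| := by
    rw [abs_pos]; exact_mod_cast hk
  refine ⟨c / |(k : ℝ)|, by positivity, fun s t hst hne => ?_⟩
  have hSdeg : R.natDegree + S.natDegree ≤ 6 * n := by
    have hS0 : S ≠ 0 := by
      rintro rfl
      rw [mul_zero] at hRS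
      exact (mul_ne_zero (C_ne_zero.2 hk) hD0) hRS
    have hR0 : R ≠ 0 := by
      rintro rfl
      rw [zero_mul] at hRS
      exact (mul_ne_zero (C_ne_zero.2 hk) hD0) hRS
    rw [← natDegree_mul hR0 hS0, ← hRS]
    exact (natDegree_C_mul_le _ _).trans hD.le
  have hval : k * fv (6 * n) D s t = fv N R s t * fv (6 * n - N) S s t := by
    rw [← fv_C_mul, hRS]
    have e1 : 6 * n = N + (6 * n - N) := by omega
    conv_lhs => rw [e1]
    exact fv_mul' le_rfl (by omega) s t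
  have hne1 : k * fv (6 * n) D s t ≠ 0 := mul_ne_zero hk hne
  have hR0 : fv N R s t ≠ 0 := by
    intro h0; rw [hval, h0, zero_mul] at hne1; exact hne1 rfl
  have hS0 : fv (6 * n - N) S s t ≠ 0 := by
    intro h0; rw [hval, h0, mul_zero] at hne1; exact hne1 rfl
  have h1 := hb s t hst hR0
  have h1' : c * (max |(s : ℝ)| |(t : ℝ)|) ^ ((N : ℝ) - 2 - ε) ≤ tp T (fv N R s t) := h1
  have hZ := one_le_max hst
  have h2 : (max |(s : ℝ)| |(t : ℝ)|) ^ ((n : ℝ) - ε) ≤
      (max |(s : ℝ)| |(t : ℝ)|) ^ ((N : ℝ) - 2 - ε) := by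
    apply Real.rpow_le_rpow_of_exponent_le hZ
    have : ((n + 2 : ℕ) : ℝ) ≤ N := by exact_mod_cast hrad
    push_cast at this
    linarith
  have h3 : tp T k * tp T (fv (6 * n) D s t) =
      tp T (fv N R s t) * tp T (fv (6 * n - N) S s t) := by
    rw [← tp_mul T hT, ← tp_mul T hT, hval]
  have h4 := one_le_tp T hT _ hS0
  have h5 := tp_le T hT k
  have h6 := tp_nonneg T (fv (6 * n) D s t)
  have h7 := tp_nonneg T (fv N R s t)
  have h8 : tp T (fv N R s t) ≤ |(k : ℝ)| * tp T (fv (6 * n) D s t) := by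
    calc tp T (fv N R s t) ≤ tp T (fv N R s t) * tp T (fv (6 * n - N) S s t) :=
          le_mul_of_one_le_right h7 h4
      _ = tp T k * tp T (fv (6 * n) D s t) := h3.symm
      _ ≤ |(k : ℝ)| * tp T (fv (6 * n) D s t) := mul_le_mul_of_nonneg_right h5 h6
  rw [div_mul_eq_mul_div, div_le_iff₀ hk1]
  calc c * (max |(s : ℝ)| |(t : ℝ)|) ^ ((n : ℝ) - ε)
      ≤ c * (max |(s : ℝ)| |(t : ℝ)|) ^ ((N : ℝ) - 2 - ε) := mul_le_mul_of_nonneg_left h2 hc.le
    _ ≤ tp T (fv N R s t) := h1'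
    _ ≤ |(k : ℝ)| * tp T (fv (6 * n) D s t) := h8
    _ = tp T (fv (6 * n) D s t) * |(k : ℝ)| := mul_comm _ _

end Pool.Agent.NH26.HF
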