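import Mathlib
import Pool.Agent.NH26.HF.Fam

/-!
The general case: arbitrary binary forms.
-/

set_option autoImplicit false

namespace Pool.Agent.NH26.HF

open Polynomial Pool.Agent.NH26.HC Pool.Agent.Y670.RD

/-- a polynomial with a given shear of its form -/
theorem shear_poly (N : ℕ) (f : ℤ[X]) (j : ℤ) :
    ∃ g : ℤ[X], g.natDegree ≤ N ∧ ∀ s t : ℤ, fv N g s t = fv N f s (j * s + t) := by
  set g : ℤ[X] := ∑ i ∈ Finset.range (N + 1), C (f.coeff i) * (X ^ i * (C j * X + 1) ^ (N - i))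
    with hg
  have hlin : (C j * X + 1 : ℤ[X]).natDegree ≤ 1 := by compute_degree!
  have hdeg : ∀ i ∈ Finset.range (N + 1), (X ^ i * (C j * X + 1 : ℤ[X]) ^ (N - i)).natDegree ≤ N := by
    intro i hi
    have hi' : i ≤ N := by have := Finset.mem_range.1 hi; omega
    refine natDegree_mul_le.trans ?_
    have h1 : ((C j * X + 1 : ℤ[X]) ^ (N - i)).natDegree ≤ (N - i) * 1 :=
      natDegree_pow_le.trans (Nat.mul_le_mul_left _ hlin)
    rw [natDegree_X_pow]
    omega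
  have hgN : g.natDegree ≤ N := by
    rw [hg]
    apply natDegree_sum_le_of_forall_le
    intro i hi
    exact (natDegree_C_mul_le _ _).trans (hdeg i hi)
  refine ⟨g, hgN, fun s t => ?_⟩
  have h0 : fv N g s t = ∑ i ∈ Finset.range (N + 1), f.coeff i *
      fv N (X ^ i * (C j * X + 1) ^ (N - i)) s t := by
    rw [hg]
    unfold fv
    simp only [finsetSum_coeff, coeff_C_mul, Finset.sum_mul, Finset.mul_sum]
    rw [Finset.sum_comm]
    refine Finset.sum_congr rfl fun i _ => Finset.sum_congr rfl fun k _ => by ring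
  rw [h0]
  unfold fv
  refine Finset.sum_congr rfl fun i hi => ?_
  have hi' : i ≤ N := by have := Finset.mem_range.1 hi; omega
  have e1 : fv N (X ^ i * (C j * X + 1) ^ (N - i)) s t = s ^ i * (j * s + t) ^ (N - i) := by
    have e2 : N = i + (N - i) := by omega
    have a1 : fv i (X ^ i : ℤ[X]) s t = s ^ i := by
      unfold fv
      rw [Finset.sum_eq_single i]
      · simp
      · intro k _ hk
        rw [coeff_X_pow, if_neg hk]; ring
      · intro h; exact absurd (Finset.mem_range.2 (Nat.lt_succ_self i)) h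
    have a2 : fv 1 (C j * X + 1 : ℤ[X]) s t = j * s + t := by
      unfold fv
      simp [Finset.sum_range_succ, coeff_one, coeff_X]
      ring
    have a3 : fv ((N - i) * 1) ((C j * X + 1 : ℤ[X]) ^ (N - i)) s t = (j * s + t) ^ (N - i) := by
      rw [fv_pow hlin, a2]
    rw [mul_one] at a3
    rw [← a1, ← a3]
    conv_lhs => rw [e2]
    have e3 : i + (N - i) - i = N - i := by omega
    rw [e3]
    apply fv_mul'
    · exact natDegree_X_pow_le i
    · have := (natDegree_pow_le (p := (C j * X + 1 : ℤ[X])) (n := N - i)).trans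
        (Nat.mul_le_mul_left _ hlin)
      omega
  have e4 := e1
  unfold fv at e4
  rw [e4]
  ring

/-- a nonzero form does not vanish at infinitely many `(1, j)` -/
theorem exists_rev (N : ℕ) (f : ℤ[X]) (hf : f ≠ 0) (hN : f.natDegree ≤ N) :
    ∃ h : ℤ[X], h ≠ 0 ∧ ∀ j : ℤ, eval j h = fv N f 1 j := by
  refine ⟨∑ i ∈ Finset.range (N + 1), C (f.coeff i) * X ^ (N - i), ?_, ?_⟩
  · intro h0
    apply hf
    ext k
    rw [coeff_zero]
    by_cases hk : k ≤ N
    · have h1 := congrArg (fun q : ℤ[X] => q.coeff (N - k)) h0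
      simp only [finsetSum_coeff, coeff_C_mul, coeff_X_pow, coeff_zero] at h1
      rw [Finset.sum_eq_single k] at h1
      · simpa using h1
      · intro i hi hik
        have : i ≤ N := by have := Finset.mem_range.1 hi; omega
        rw [if_neg (by omega), mul_zero]
      · intro h; exact absurd (Finset.mem_range.2 (by omega)) h
    · exact coeff_eq_zero_of_natDegree_lt (by omega)
  · intro j
    rw [eval_finsetSum]
    unfold fv
    refine Finset.sum_congr rfl fun i _ => ?_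
    simp

/-- the size of the pair -/
noncomputable def Q (x y : ℤ) : ℝ := max (|(x : ℝ)| ^ 3) ((y : ℝ) ^ 2)

theorem Q_nonneg (x y : ℤ) : 0 ≤ Q x y := le_trans (by positivity) (le_max_left _ _)

theorem Q_one {x y : ℤ} (h : y ^ 2 - x ^ 3 ≠ 0) : 1 ≤ Q x y := by
  unfold Q
  by_cases hx : x = 0
  · have hy : y ≠ 0 := by
      rintro rfl
      apply h
      rw [hx]; ring
    have h1 : (1 : ℝ) ≤ |(y : ℝ)| := by exact_mod_cast Int.one_le_abs hy
    refine le_max_of_le_right ?_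
    rw [← sq_abs]
    nlinarith
  · have h1 : (1 : ℝ) ≤ |(x : ℝ)| := by exact_mod_cast Int.one_le_abs hx
    exact le_max_of_le_left (one_le_pow₀ h1)

/-- scaling -/
theorem scale {x y g : ℤ} {e c : ℝ} (hg : g ≠ 0) (he : e ≤ 1)
    (h : c * Q x y ^ e ≤ |((y ^ 2 - x ^ 3 : ℤ) : ℝ)|) (hc : 0 ≤ c) :
    c * Q (g ^ 2 * x) (g ^ 3 * y) ^ e ≤
      |(((g ^ 3 * y) ^ 2 - (g ^ 2 * x) ^ 3 : ℤ) : ℝ)| := by
  have hg1 : (1 : ℝ) ≤ |(g : ℝ)| := by exact_mod_cast Int.one_le_abs hg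
  have hg6 : (1 : ℝ) ≤ |(g : ℝ)| ^ 6 := one_le_pow₀ hg1
  have e1 : Q (g ^ 2 * x) (g ^ 3 * y) = |(g : ℝ)| ^ 6 * Q x y := by
    unfold Q
    rw [mul_max_of_nonneg _ _ (by positivity : (0 : ℝ) ≤ |(g : ℝ)| ^ 6)]
    push_cast
    rw [abs_mul, abs_pow]
    congr 1
    · ring
    · have : |(g : ℝ)| ^ 6 = (g : ℝ) ^ 6 := by
        rw [← abs_pow]; exact abs_of_nonneg (by positivity)
      rw [this]; ring
  have e2 : |(((g ^ 3 * y) ^ 2 - (g ^ 2 * x) ^ 3 : ℤ) : ℝ)| =
      |(g : ℝ)| ^ 6 * |((y ^ 2 - x ^ 3 : ℤ) : ℝ)| := by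
    rw [← abs_pow, ← abs_mul]
    congr 1
    push_cast
    ring
  rw [e1, e2, Real.mul_rpow (by positivity) (Q_nonneg x y)]
  have h5 : (|(g : ℝ)| ^ 6) ^ e ≤ |(g : ℝ)| ^ 6 := by
    have := Real.rpow_le_rpow_of_exponent_le hg6 he
    rwa [Real.rpow_one] at this
  calc c * ((|(g : ℝ)| ^ 6) ^ e * Q x y ^ e) = (|(g : ℝ)| ^ 6) ^ e * (c * Q x y ^ e) := by ring
    _ ≤ |(g : ℝ)| ^ 6 * |((y ^ 2 - x ^ 3 : ℤ) : ℝ)| :=
      mul_le_mul h5 h (mul_nonneg hc (Real.rpow_nonneg (Q_nonneg x y) _)) (by positivity)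

/-- the upper bound of the values -/
theorem Q_le (A B : ℤ[X]) (n : ℕ) : ∃ C : ℝ, 0 < C ∧ ∀ s t : ℤ,
    Q (fv (2 * n) A s t) (fv (3 * n) B s t) ≤ C * (max |(s : ℝ)| |(t : ℝ)|) ^ (6 * n) := by
  set a : ℝ := ∑ i ∈ Finset.range (2 * n + 1), |(A.coeff i : ℝ)| with ha
  set b : ℝ := ∑ i ∈ Finset.range (3 * n + 1), |(B.coeff i : ℝ)| with hb
  have ha0 : 0 ≤ a := Finset.sum_nonneg fun i _ => abs_nonneg _
  have hb0 : 0 ≤ b := Finset.sum_nonneg fun i _ => abs_nonneg _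
  refine ⟨a ^ 3 + b ^ 2 + 1, by positivity, fun s t => ?_⟩
  set Z := max |(s : ℝ)| |(t : ℝ)| with hZ
  have hZ0 : 0 ≤ Z := le_max_of_le_left (abs_nonneg _)
  have h1 : |((fv (2 * n) A s t : ℤ) : ℝ)| ≤ a * Z ^ (2 * n) := fv_le _ _ _ _
  have h2 : |((fv (3 * n) B s t : ℤ) : ℝ)| ≤ b * Z ^ (3 * n) := fv_le _ _ _ _
  have h3 := pow_le_pow_left₀ (abs_nonneg _) h1 3
  have h4 := pow_le_pow_left₀ (abs_nonneg _) h2 2
  have e3 : (a * Z ^ (2 * n)) ^ 3 = a ^ 3 * Z ^ (6 * n) := by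
    rw [mul_pow, ← pow_mul]; congr 2; ring
  have e4 : (b * Z ^ (3 * n)) ^ 2 = b ^ 2 * Z ^ (6 * n) := by
    rw [mul_pow, ← pow_mul]; congr 2; ring
  rw [e3] at h3
  rw [e4, sq_abs] at h4
  have hZn : 0 ≤ Z ^ (6 * n) := by positivity
  have ha3 : 0 ≤ a ^ 3 * Z ^ (6 * n) := by positivity
  have hb2 : 0 ≤ b ^ 2 * Z ^ (6 * n) := by positivity
  unfold Q
  refine max_le ?_ ?_ <;> nlinarith

theorem from_Z (A B : ℤ[X]) (n : ℕ) (hn : 1 ≤ n) (e : ℝ) (he : 0 ≤ e) (κ : ℝ) (hκ : 0 < κ)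
    (F : ℤ → ℤ → ℝ) (P : ℤ → ℤ → Prop)
    (h : ∀ s t : ℤ, P s t → κ * (max |(s : ℝ)| |(t : ℝ)|) ^ (6 * n * e) ≤ F s t) :
    ∃ c : ℝ, 0 < c ∧ ∀ s t : ℤ, P s t →
      c * Q (fv (2 * n) A s t) (fv (3 * n) B s t) ^ e ≤ F s t := by
  obtain ⟨C, hC, hQ⟩ := Q_le A B n
  refine ⟨κ * (C ^ e)⁻¹, by positivity, fun s t hP => ?_⟩
  have hZ0 : (0 : ℝ) ≤ max |(s : ℝ)| |(t : ℝ)| := le_max_of_le_left (abs_nonneg _)
  have h1 := Real.rpow_le_rpow (Q_nonneg _ _) (hQ s t) he
  rw [Real.mul_rpow hC.le (by positivity), ← Real.rpow_natCast, ← Real.rpow_mul hZ0] at h1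
  push_cast at h1
  have hne : C ^ e ≠ 0 := by positivity
  have := hn
  calc κ * (C ^ e)⁻¹ * Q (fv (2 * n) A s t) (fv (3 * n) B s t) ^ e
      ≤ κ * (C ^ e)⁻¹ * (C ^ e * (max |(s : ℝ)| |(t : ℝ)|) ^ (6 * n * e)) :=
        mul_le_mul_of_nonneg_left h1 (by positivity)
    _ = κ * (max |(s : ℝ)| |(t : ℝ)|) ^ (6 * n * e) := by field_simp
    _ ≤ F s t := h s t hP

/-- **forms of exact degrees** -/
theorem exact_bound (ε : ℝ) (hε : 0 < ε) (hε6 : ε ≤ 1 / 6) : ∀ (n : ℕ) (A B : ℤ[X]),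
    A.natDegree = 2 * n → B.natDegree = 3 * n → (B ^ 2 - A ^ 3).natDegree = 6 * n →
    ∃ c : ℝ, 0 < c ∧ ∀ s t : ℤ, IsCoprime s t →
      fv (3 * n) B s t ^ 2 - fv (2 * n) A s t ^ 3 ≠ 0 →
      c * Q (fv (2 * n) A s t) (fv (3 * n) B s t) ^ (1 / 6 - ε) ≤
        |((fv (3 * n) B s t ^ 2 - fv (2 * n) A s t ^ 3 : ℤ) : ℝ)| := by
  intro n
  induction n using Nat.strong_induction_on with
  | _ n ih =>
    intro A B hA hB hD
    rcases Nat.eq_zero_or_pos n with hn | hn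
    · -- constants
      subst hn
      have c1 : ∀ (f : ℤ[X]) (s t : ℤ), fv 0 f s t = f.coeff 0 := by
        intro f s t; unfold fv; simp
      set q := Q (A.coeff 0) (B.coeff 0) ^ (1 / 6 - ε) with hq
      have hq0 : 0 ≤ q := Real.rpow_nonneg (Q_nonneg _ _) _
      refine ⟨1 / (q + 1), by positivity, fun s t _ hne => ?_⟩
      simp only [mul_zero, c1] at hne ⊢
      rw [← hq]
      have h1 : (1 : ℝ) ≤ |((B.coeff 0 ^ 2 - A.coeff 0 ^ 3 : ℤ) : ℝ)| := by
        exact_mod_cast Int.one_le_abs hne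
      refine le_trans ?_ h1
      rw [one_div, inv_mul_le_iff₀ (by positivity)]
      linarith
    · have hA0 : A ≠ 0 := by rintro rfl; simp at hA; omega
      have hB0 : B ≠ 0 := by rintro rfl; simp at hB; omega
      have hD0 : B ^ 2 - A ^ 3 ≠ 0 := by intro h0; rw [h0] at hD; simp at hD; omega
      by_cases hmin : ∀ q : ℤ[X], 1 ≤ q.natDegree → ¬ (q ^ 2 ∣ A ∧ q ^ 3 ∣ B)
      · obtain ⟨c, hc, hb⟩ := minimal_bound A B n hn hA hB hD hmin ∅ (by simp) (6 * n * ε)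
          (by positivity)
        have hb' : ∀ s t : ℤ, (IsCoprime s t ∧ fv (3 * n) B s t ^ 2 - fv (2 * n) A s t ^ 3 ≠ 0) →
            c * (max |(s : ℝ)| |(t : ℝ)|) ^ (6 * n * (1 / 6 - ε)) ≤
              |((fv (3 * n) B s t ^ 2 - fv (2 * n) A s t ^ 3 : ℤ) : ℝ)| := by
          intro s t ⟨hst, hne⟩
          rw [← fv_D hA.le hB.le] at hne ⊢
          have h1 := hb s t hst hne
          have e1 : (6 * n * (1 / 6 - ε) : ℝ) = (n : ℝ) - 6 * n * ε := by ring
          rw [e1]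
          refine h1.trans ?_
          unfold tp
          simp
        obtain ⟨c', hc', h2⟩ := from_Z A B n hn (1 / 6 - ε) (by linarith) c hc _ _ hb'
        exact ⟨c', hc', fun s t hst hne => h2 s t ⟨hst, hne⟩⟩
      · push Not at hmin
        obtain ⟨q, hq, ⟨A0, hA0'⟩, ⟨B0, hB0'⟩⟩ := hmin
        have hq0 : q ≠ 0 := by rintro rfl; simp at hq
        have hA00 : A0 ≠ 0 := by rintro rfl; rw [mul_zero] at hA0'; exact hA0 hA0'
        have hB00 : B0 ≠ 0 := by rintro rfl; rw [mul_zero] at hB0'; exact hB0 hB0'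
        have hDe : B ^ 2 - A ^ 3 = q ^ 6 * (B0 ^ 2 - A0 ^ 3) := by rw [hA0', hB0']; ring
        have hD00 : B0 ^ 2 - A0 ^ 3 ≠ 0 := by
          intro h0; rw [h0, mul_zero] at hDe; exact hD0 hDe
        have dA : 2 * n = 2 * q.natDegree + A0.natDegree := by
          rw [← hA, hA0', natDegree_mul (pow_ne_zero _ hq0) hA00, natDegree_pow]
        have dB : 3 * n = 3 * q.natDegree + B0.natDegree := by
          rw [← hB, hB0', natDegree_mul (pow_ne_zero _ hq0) hB00, natDegree_pow]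
        have dD : 6 * n = 6 * q.natDegree + (B0 ^ 2 - A0 ^ 3).natDegree := by
          rw [← hD, hDe, natDegree_mul (pow_ne_zero _ hq0) hD00, natDegree_pow]
        set m := q.natDegree with hm
        set n0 := n - m with hn0
        have hmn : m ≤ n := by omega
        obtain ⟨c, hc, hb⟩ := ih n0 (by omega) A0 B0 (by omega) (by omega) (by omega)
        refine ⟨c, hc, fun s t hst hne => ?_⟩
        have vA : fv (2 * n) A s t = fv m q s t ^ 2 * fv (2 * n0) A0 s t := by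
          have e1 : 2 * n = 2 * m + 2 * n0 := by omega
          rw [e1, hA0', fv_mul' (natDegree_pow_le.trans (by rw [hm])) (by omega), fv_pow le_rfl]
        have vB : fv (3 * n) B s t = fv m q s t ^ 3 * fv (3 * n0) B0 s t := by
          have e1 : 3 * n = 3 * m + 3 * n0 := by omega
          rw [e1, hB0', fv_mul' (natDegree_pow_le.trans (by rw [hm])) (by omega), fv_pow le_rfl]
        have hqne : fv m q s t ≠ 0 := by
          intro h0
          apply hne
          rw [vA, vB, h0]; ring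
        have hne0 : fv (3 * n0) B0 s t ^ 2 - fv (2 * n0) A0 s t ^ 3 ≠ 0 := by
          intro h0
          apply hne
          rw [vA, vB]
          linear_combination (fv m q s t) ^ 6 * h0
        have h1 := hb s t hst hne0
        rw [vA, vB]
        exact scale hqne (by linarith) h1 hc.le

/-- the sheared pair of exact degrees -/
theorem exists_shear (A B : ℤ[X]) (n : ℕ) (hA : A.natDegree ≤ 2 * n) (hB : B.natDegree ≤ 3 * n)
    (hA0 : A ≠ 0) (hB0 : B ≠ 0) (hD0 : B ^ 2 - A ^ 3 ≠ 0) :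
    ∃ (j : ℤ) (A' B' : ℤ[X]), A'.natDegree = 2 * n ∧ B'.natDegree = 3 * n ∧
      (B' ^ 2 - A' ^ 3).natDegree = 6 * n ∧
      (∀ s t : ℤ, fv (2 * n) A' s t = fv (2 * n) A s (j * s + t)) ∧
      (∀ s t : ℤ, fv (3 * n) B' s t = fv (3 * n) B s (j * s + t)) := by
  have hDdeg : (B ^ 2 - A ^ 3).natDegree ≤ 6 * n := by
    refine (natDegree_sub_le _ _).trans (max_le ?_ ?_)
    · exact natDegree_pow_le.trans (by omega)
    · exact natDegree_pow_le.trans (by omega)
  obtain ⟨h1, h1n, e1⟩ := exists_rev (2 * n) A hA0 hA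
  obtain ⟨h2, h2n, e2⟩ := exists_rev (3 * n) B hB0 hB
  obtain ⟨h3, h3n, e3⟩ := exists_rev (6 * n) _ hD0 hDdeg
  have hprod : h1 * h2 * h3 ≠ 0 := mul_ne_zero (mul_ne_zero h1n h2n) h3n
  obtain ⟨j, hj⟩ : ∃ j : ℤ, eval j (h1 * h2 * h3) ≠ 0 := by
    by_contra hcon
    push Not at hcon
    apply hprod
    apply Polynomial.funext
    intro r
    rw [hcon r, eval_zero]
  rw [eval_mul, eval_mul, e1, e2, e3] at hj
  have j1 : fv (2 * n) A 1 j ≠ 0 := fun h => hj (by rw [h]; ring)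
  have j2 : fv (3 * n) B 1 j ≠ 0 := fun h => hj (by rw [h]; ring)
  have j3 : fv (6 * n) (B ^ 2 - A ^ 3) 1 j ≠ 0 := fun h => hj (by rw [h]; ring)
  obtain ⟨A', dA, hA'⟩ := shear_poly (2 * n) A j
  obtain ⟨B', dB, hB'⟩ := shear_poly (3 * n) B j
  have cA : A'.coeff (2 * n) ≠ 0 := by
    have := fv_zero (2 * n) A' 1
    rw [hA', one_pow, mul_one, mul_one, add_zero] at this
    rw [← this]; exact j1
  have cB : B'.coeff (3 * n) ≠ 0 := by
    have := fv_zero (3 * n) B' 1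
    rw [hB', one_pow, mul_one, mul_one, add_zero] at this
    rw [← this]; exact j2
  have cD : (B' ^ 2 - A' ^ 3).coeff (6 * n) ≠ 0 := by
    have := fv_zero (6 * n) (B' ^ 2 - A' ^ 3) 1
    rw [fv_D dA dB, hA', hB', one_pow, mul_one, mul_one, add_zero, ← fv_D hA hB] at this
    rw [← this]; exact j3
  have hD'deg : (B' ^ 2 - A' ^ 3).natDegree ≤ 6 * n := by
    refine (natDegree_sub_le _ _).trans (max_le ?_ ?_)
    · exact natDegree_pow_le.trans (by omega)
    · exact natDegree_pow_le.trans (by omega)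
  exact ⟨j, A', B', le_antisymm dA (le_natDegree_of_ne_zero cA),
    le_antisymm dB (le_natDegree_of_ne_zero cB), le_antisymm hD'deg (le_natDegree_of_ne_zero cD),
    hA', hB'⟩

/-- **all binary forms** -/
theorem gen_bound (A B : ℤ[X]) (n : ℕ) (hA : A.natDegree ≤ 2 * n) (hB : B.natDegree ≤ 3 * n)
    (ε : ℝ) (hε : 0 < ε) (hε6 : ε ≤ 1 / 6) :
    ∃ c : ℝ, 0 < c ∧ ∀ s t : ℤ,
      fv (3 * n) B s t ^ 2 - fv (2 * n) A s t ^ 3 ≠ 0 →
      c * Q (fv (2 * n) A s t) (fv (3 * n) B s t) ^ (1 / 6 - ε) ≤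
        |((fv (3 * n) B s t ^ 2 - fv (2 * n) A s t ^ 3 : ℤ) : ℝ)| := by
  have triv : ∀ x y : ℤ, y ^ 2 - x ^ 3 ≠ 0 → Q x y ≤ |((y ^ 2 - x ^ 3 : ℤ) : ℝ)| →
      1 * Q x y ^ (1 / 6 - ε) ≤ |((y ^ 2 - x ^ 3 : ℤ) : ℝ)| := by
    intro x y hne h
    have h1 := Real.rpow_le_rpow_of_exponent_le (Q_one hne) (by linarith : 1 / 6 - ε ≤ 1)
    rw [Real.rpow_one] at h1
    linarith
  by_cases hA0 : A = 0
  · refine ⟨1, one_pos, fun s t hne => triv _ _ hne ?_⟩
    have : fv (2 * n) A s t = 0 := by rw [hA0]; simp [fv]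
    rw [this]
    unfold Q
    push_cast
    rw [abs_zero, zero_pow (by norm_num), sub_zero, abs_of_nonneg (sq_nonneg _)]
    exact max_le (sq_nonneg _) le_rfl
  by_cases hB0 : B = 0
  · refine ⟨1, one_pos, fun s t hne => triv _ _ hne ?_⟩
    have : fv (3 * n) B s t = 0 := by rw [hB0]; simp [fv]
    rw [this]
    unfold Q
    push_cast
    rw [zero_pow (by norm_num), zero_sub, abs_neg, abs_pow]
    exact max_le le_rfl (by positivity)
  by_cases hD0 : B ^ 2 - A ^ 3 = 0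
  · refine ⟨1, one_pos, fun s t hne => absurd ?_ hne⟩
    rw [← fv_D hA hB, hD0]
    simp [fv]
  obtain ⟨j, A', B', dA, dB, dD, hA', hB'⟩ := exists_shear A B n hA hB hA0 hB0 hD0
  obtain ⟨c, hc, hb⟩ := exact_bound ε hε hε6 n A' B' dA dB dD
  -- coprime pairs
  have hcop : ∀ s t : ℤ, IsCoprime s t → fv (3 * n) B s t ^ 2 - fv (2 * n) A s t ^ 3 ≠ 0 →
      c * Q (fv (2 * n) A s t) (fv (3 * n) B s t) ^ (1 / 6 - ε) ≤
        |((fv (3 * n) B s t ^ 2 - fv (2 * n) A s t ^ 3 : ℤ) : ℝ)| := by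
    intro s t hst hne
    have h1 : IsCoprime s (t - j * s) := by
      have := (IsCoprime.add_mul_left_right_iff (x := s) (y := t) (z := -j)).2 hst
      rwa [show t + s * -j = t - j * s by ring] at this
    have eA : fv (2 * n) A' s (t - j * s) = fv (2 * n) A s t := by
      rw [hA']; congr 1; ring
    have eB : fv (3 * n) B' s (t - j * s) = fv (3 * n) B s t := by
      rw [hB']; congr 1; ring
    have h2 := hb s (t - j * s) h1
    rw [eA, eB] at h2
    exact h2 hne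
  rcases Nat.eq_zero_or_pos n with hn | hn
  · subst hn
    refine ⟨c, hc, fun s t hne => ?_⟩
    have c1 : ∀ (f : ℤ[X]) (s t : ℤ), fv 0 f s t = f.coeff 0 := by
      intro f s t; unfold fv; simp
    have h1 := hcop 1 0 isCoprime_one_left
    simp only [mul_zero, c1] at hne h1 ⊢
    exact h1 hne
  refine ⟨c, hc, fun s t hne => ?_⟩
  by_cases hg : Int.gcd s t = 0
  · exfalso
    obtain ⟨hs, ht⟩ := Int.gcd_eq_zero_iff.1 hg
    apply hne
    rw [← fv_D hA hB, hs, ht, fv_zero, zero_pow (by omega), mul_zero]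
  · have hgne : (Int.gcd s t : ℤ) ≠ 0 := by exact_mod_cast hg
    set g : ℤ := (Int.gcd s t : ℤ) with hgd
    obtain ⟨s1, h1⟩ := Int.gcd_dvd_left s t
    obtain ⟨t1, h2⟩ := Int.gcd_dvd_right s t
    rw [← hgd] at h1 h2
    have hst1 : IsCoprime s1 t1 := by
      obtain ⟨u, v, huv⟩ : ∃ u v : ℤ, g = s * u + t * v := ⟨_, _, Int.gcd_eq_gcd_ab s t⟩
      refine ⟨u, v, ?_⟩
      apply mul_left_cancel₀ hgne
      calc g * (u * s1 + v * t1) = (g * s1) * u + (g * t1) * v := by ring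
        _ = s * u + t * v := by rw [← h1, ← h2]
        _ = g * 1 := by rw [← huv, mul_one]
    have hhom : ∀ (N : ℕ) (f : ℤ[X]), fv N f s t = g ^ N * fv N f s1 t1 := by
      intro N f
      unfold fv
      rw [Finset.mul_sum]
      refine Finset.sum_congr rfl fun i hi => ?_
      have hi' : i ≤ N := by have := Finset.mem_range.1 hi; omega
      have e1 : g ^ N = g ^ i * g ^ (N - i) := by rw [← pow_add]; congr 1; omega
      rw [e1]
      conv_lhs => rw [h1, h2]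
      rw [mul_pow, mul_pow]
      ring
    have eA : fv (2 * n) A s t = (g ^ n) ^ 2 * fv (2 * n) A s1 t1 := by
      rw [hhom, ← pow_mul, mul_comm n 2]
    have eB : fv (3 * n) B s t = (g ^ n) ^ 3 * fv (3 * n) B s1 t1 := by
      rw [hhom, ← pow_mul, mul_comm n 3]
    have hne1 : fv (3 * n) B s1 t1 ^ 2 - fv (2 * n) A s1 t1 ^ 3 ≠ 0 := by
      intro h0
      apply hne
      rw [eA, eB]
      linear_combination (g ^ n) ^ 6 * h0
    rw [eA, eB]
    exact scale (pow_ne_zero _ hgne) (by linarith) (hcop s1 t1 hst1 hne1) hc.le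

/-- **coprime forms, with the primes of `T` removed** -/
theorem cop_bound (A B : ℤ[X]) (n : ℕ) (hA : A.natDegree ≤ 2 * n) (hB : B.natDegree ≤ 3 * n)
    (hn : 1 ≤ n)
    (K : ℤ) (hK : K ≠ 0) (hgcd : ∀ s t d : ℤ, IsCoprime s t → d ∣ fv (2 * n) A s t →
      d ∣ fv (3 * n) B s t → d ∣ K) (T : Finset ℕ) (hT : ∀ p ∈ T, p.Prime)
    (ε : ℝ) (hε : 0 < ε) (hε6 : ε ≤ 1 / 6) (hA0 : A ≠ 0) (hB0 : B ≠ 0) :
    ∃ c : ℝ, 0 < c ∧ ∀ s t : ℤ, IsCoprime s t →
      fv (3 * n) B s t ^ 2 - fv (2 * n) A s t ^ 3 ≠ 0 →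
      c * Q (fv (2 * n) A s t) (fv (3 * n) B s t) ^ (1 / 6 - ε) ≤
        tp T (fv (3 * n) B s t ^ 2 - fv (2 * n) A s t ^ 3) := by
  by_cases hD0 : B ^ 2 - A ^ 3 = 0
  · refine ⟨1, one_pos, fun s t _ hne => absurd ?_ hne⟩
    rw [← fv_D hA hB, hD0]
    simp [fv]
  obtain ⟨j, A', B', dA, dB, dD, hA', hB'⟩ := exists_shear A B n hA hB hA0 hB0 hD0
  have shear_cop : ∀ s t : ℤ, IsCoprime s t → IsCoprime s (j * s + t) := by
    intro s t hst
    have := (IsCoprime.add_mul_left_right_iff (x := s) (y := t) (z := j)).2 hst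
    rwa [show t + s * j = j * s + t by ring] at this
  have hmin : ∀ q : ℤ[X], 1 ≤ q.natDegree → ¬ (q ^ 2 ∣ A' ∧ q ^ 3 ∣ B') := by
    rintro q hq ⟨⟨A1, hA1⟩, ⟨B1, hB1⟩⟩
    have hA'0 : A' ≠ 0 := by rintro rfl; simp at dA; omega
    have hB'0 : B' ≠ 0 := by rintro rfl; simp at dB; omega
    have hq0 : q ≠ 0 := by rintro rfl; simp at hq
    have hA10 : A1 ≠ 0 := by rintro rfl; rw [mul_zero] at hA1; exact hA'0 hA1
    have hB10 : B1 ≠ 0 := by rintro rfl; rw [mul_zero] at hB1; exact hB'0 hB1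
    set m := q.natDegree with hm
    have dA1 : 2 * n = 2 * m + A1.natDegree := by
      rw [← dA, hA1, natDegree_mul (pow_ne_zero _ hq0) hA10, natDegree_pow]
    have dB1 : 3 * n = 3 * m + B1.natDegree := by
      rw [← dB, hB1, natDegree_mul (pow_ne_zero _ hq0) hB10, natDegree_pow]
    -- q(s, 1) divides K for every s
    have hdvd : ∀ s : ℤ, eval s q ∣ K := by
      intro s
      have e1 : fv m q s 1 = eval s q := by
        unfold fv
        rw [eval_eq_sum_range, ← hm]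
        refine Finset.sum_congr rfl fun i _ => ?_
        rw [one_pow, mul_one]
      have c1 := shear_cop s 1 isCoprime_one_right
      apply hgcd s (j * s + 1) _ c1
      · rw [← hA', hA1, dA1, fv_mul' (natDegree_pow_le.trans (by rw [hm])) le_rfl,
          fv_pow le_rfl, e1]
        exact ⟨eval s q * fv A1.natDegree A1 s 1, by ring⟩
      · rw [← hB', hB1, dB1, fv_mul' (natDegree_pow_le.trans (by rw [hm])) le_rfl,
          fv_pow le_rfl, e1]
        exact ⟨eval s q ^ 2 * fv B1.natDegree B1 s 1, by ring⟩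
    -- so q takes finitely many values
    have hfin : {k : ℤ | |k| ≤ |K|}.Finite := by
      apply (Set.finite_Icc (-|K|) |K|).subset
      intro k hk
      exact ⟨(abs_le.1 hk).1, (abs_le.1 hk).2⟩
    have hle : ∀ s : ℤ, |eval s q| ≤ |K| := fun s =>
      Int.le_of_dvd (abs_pos.2 hK) ((abs_dvd_abs _ _).2 (hdvd s))
    set Pr : ℤ[X] := ∏ k ∈ hfin.toFinset, (q - C k) with hPr
    have hPr0 : Pr = 0 := by
      apply Polynomial.funext
      intro s
      rw [hPr, eval_prod, eval_zero]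
      apply Finset.prod_eq_zero (i := eval s q)
      · exact hfin.mem_toFinset.2 (hle s)
      · simp
    rw [hPr, Finset.prod_eq_zero_iff] at hPr0
    obtain ⟨k, -, hk⟩ := hPr0
    have : q = C k := sub_eq_zero.1 hk
    have h9 : q.natDegree = 0 := by rw [this, natDegree_C]
    omega
  obtain ⟨c, hc, hb⟩ := minimal_bound A' B' n hn dA dB dD hmin T hT (6 * n * ε) (by positivity)
  have hb' : ∀ s t : ℤ, (IsCoprime s t ∧ fv (3 * n) B' s t ^ 2 - fv (2 * n) A' s t ^ 3 ≠ 0) →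
      c * (max |(s : ℝ)| |(t : ℝ)|) ^ (6 * n * (1 / 6 - ε)) ≤
        tp T (fv (3 * n) B' s t ^ 2 - fv (2 * n) A' s t ^ 3) := by
    intro s t ⟨hst, hne⟩
    rw [← fv_D dA.le dB.le] at hne ⊢
    have e1 : (6 * n * (1 / 6 - ε) : ℝ) = (n : ℝ) - 6 * n * ε := by ring
    rw [e1]
    exact hb s t hst hne
  obtain ⟨c', hc', h2⟩ := from_Z A' B' n hn (1 / 6 - ε) (by linarith) c hc _ _ hb'
  refine ⟨c', hc', fun s t hst hne => ?_⟩
  have h1 : IsCoprime s (t - j * s) := by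
    have := (IsCoprime.add_mul_left_right_iff (x := s) (y := t) (z := -j)).2 hst
    rwa [show t + s * -j = t - j * s by ring] at this
  have eA : fv (2 * n) A' s (t - j * s) = fv (2 * n) A s t := by
    rw [hA']; congr 1; ring
  have eB : fv (3 * n) B' s (t - j * s) = fv (3 * n) B s t := by
    rw [hB']; congr 1; ring
  have h3 := h2 s (t - j * s)
  rw [eA, eB] at h3
  exact h3 ⟨h1, hne⟩

end Pool.Agent.NH26.HF
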